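import Pool.Agent.Helper81.CP.CP3

/-!
MP_82cbb9_al, module CP-3c: elements acting trivially lie deep in the lower central series.
The Magnus-Witt theorem (CP-2) is taken as the hypothesis `mw`.
-/

set_option autoImplicit false

open scoped commutatorElement

namespace Pool.Agent.CP

/-- CP-3c from CP-2 -/
theorem cp3_mem_gam_of_acts
    (mw : ∀ {X : Type} [Fintype X] (w : X → ℕ), (∀ x, 1 ≤ w x) → ∀ (c : ℕ)
      {P : Type} [Group P] (Pf : ℕ → Subgroup P), Antitone Pf → Pf c = ⊥ →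
      (∀ i j, 1 ≤ i → 1 ≤ j → ⁅Pf i, Pf j⁆ ≤ Pf (i + j)) → ∀ (p : X → P),
      (∀ x, p x ∈ Pf (w x)) → ∀ (σ : FreeGroup X),
      (∀ (M : FilMod c) (φ : FreeGroup X →* (M.A ≃ₗ[ℚ] M.A)),
        (∀ x i, ∀ a ∈ M.Fil i, φ (FreeGroup.of x) a - a ∈ M.Fil (i + w x)) → φ σ = 1) →
      FreeGroup.lift p σ = 1)
    (q j : ℕ) (σ : FreeGroup (Fin q))
    (hσ : ∀ (M : FilMod (j + 2)) (φ : FreeGroup (Fin q) →* (M.A ≃ₗ[ℚ] M.A)),
      (∀ x i, ∀ a ∈ M.Fil i, φ (FreeGroup.of x) a - a ∈ M.Fil (i + 1)) → φ σ = 1) :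
    σ ∈ gam (⊤ : Subgroup (FreeGroup (Fin q))) (j + 1) := by
  set T : Subgroup (FreeGroup (Fin q)) := ⊤ with hT
  haveI hn := gam_normal T (j + 1)
  set N := gam T (j + 1) with hN
  set m := QuotientGroup.mk' N with hm
  set Pf : ℕ → Subgroup (FreeGroup (Fin q) ⧸ N) := fun i =>
    match i with
    | 0 => ⊤
    | i + 1 => (gam T i).map m with hPf
  have h := mw (X := Fin q) (fun _ => 1) (fun _ => le_refl _) (j + 2) Pf ?_ ?_ ?_
    (fun x => m (FreeGroup.of x)) ?_ σ hσ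
  · have h1 : FreeGroup.lift (fun x => m (FreeGroup.of x)) = m := by
      ext x; simp
    rw [h1] at h
    exact (QuotientGroup.eq_one_iff σ).1 h
  · refine antitone_nat_of_succ_le fun i => ?_
    cases i with
    | zero => exact le_top
    | succ i => exact Subgroup.map_mono (cp3_gam_succ_le T i)
  · change (gam T (j + 1)).map m = ⊥
    exact (cp3_map_mk_eq_bot N _).2 (le_refl _)
  · intro a b ha hb
    obtain ⟨a, rfl⟩ := Nat.exists_eq_add_of_le' ha
    obtain ⟨b, rfl⟩ := Nat.exists_eq_add_of_le' hb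
    change ⁅(gam T a).map m, (gam T b).map m⁆ ≤ _
    rw [← Subgroup.map_commutator, show a + 1 + (b + 1) = (a + b + 1) + 1 by ring]
    exact Subgroup.map_mono (gam_comm T a b)
  · intro x
    exact ⟨FreeGroup.of x, Subgroup.mem_top _, rfl⟩

end Pool.Agent.CP
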