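import Pool.Agent.Helper29.CP.Base

/-!
MP_82cbb9_al, module CP-3 (group theory of the lower central series), except `mem_gam_of_acts`.
-/

set_option autoImplicit false

open scoped commutatorElement

namespace Pool.Agent.CP

/-- `H ≤ N` iff the image in the quotient is trivial -/
theorem cp3_map_mk_eq_bot {G : Type*} [Group G] (N : Subgroup G) [N.Normal] (H : Subgroup G) :
    H.map (QuotientGroup.mk' N) = ⊥ ↔ H ≤ N := by
  rw [Subgroup.map_eq_bot_iff, QuotientGroup.ker_mk']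

/-- three subgroups lemma modulo a normal subgroup -/
theorem cp3_three {G : Type*} [Group G] (N : Subgroup G) [N.Normal] (H₁ H₂ H₃ : Subgroup G)
    (h1 : ⁅⁅H₂, H₃⁆, H₁⁆ ≤ N) (h2 : ⁅⁅H₃, H₁⁆, H₂⁆ ≤ N) : ⁅⁅H₁, H₂⁆, H₃⁆ ≤ N := by
  rw [← cp3_map_mk_eq_bot N] at h1 h2 ⊢
  simp only [Subgroup.map_commutator] at h1 h2 ⊢
  exact Subgroup.commutator_commutator_eq_bot_of_rotate h1 h2

theorem cp3_sup_left {G : Type*} [Group G] (N : Subgroup G) [N.Normal] (A B C : Subgroup G)
    (h1 : ⁅A, C⁆ ≤ N) (h2 : ⁅B, C⁆ ≤ N) : ⁅A ⊔ B, C⁆ ≤ N := by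
  rw [← cp3_map_mk_eq_bot N] at h1 h2 ⊢
  simp only [Subgroup.map_commutator, Subgroup.map_sup] at h1 h2 ⊢
  rw [Subgroup.commutator_eq_bot_iff_le_centralizer] at h1 h2 ⊢
  exact sup_le h1 h2

theorem cp3_sup_right {G : Type*} [Group G] (N : Subgroup G) [N.Normal] (A B C : Subgroup G)
    (h1 : ⁅C, A⁆ ≤ N) (h2 : ⁅C, B⁆ ≤ N) : ⁅C, A ⊔ B⁆ ≤ N := by
  rw [Subgroup.commutator_comm] at h1 h2 ⊢
  exact cp3_sup_left N A B C h1 h2

/-- CP-3a -/
theorem gam_normal {G : Type*} [Group G] (L : Subgroup G) [L.Normal] (i : ℕ) :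
    (gam L i).Normal := by
  induction i with
  | zero => exact ‹L.Normal›
  | succ n ih => exact @Subgroup.commutator_normal G _ (gam L n) L ih _

theorem cp3_gam_succ_le {G : Type*} [Group G] (L : Subgroup G) [L.Normal] (i : ℕ) :
    gam L (i + 1) ≤ gam L i := by
  haveI := gam_normal L i
  exact Subgroup.commutator_le_left _ _

theorem cp3_gam_anti {G : Type*} [Group G] (L : Subgroup G) [L.Normal] : Antitone (gam L) :=
  antitone_nat_of_succ_le (cp3_gam_succ_le L)

/-- CP-3b -/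
theorem gam_comm {G : Type*} [Group G] (L : Subgroup G) [L.Normal] (i j : ℕ) :
    ⁅gam L i, gam L j⁆ ≤ gam L (i + j + 1) := by
  induction j generalizing i with
  | zero => exact le_refl _
  | succ j ih =>
    haveI := gam_normal L (i + (j + 1) + 1)
    rw [Subgroup.commutator_comm]
    change ⁅⁅gam L j, L⁆, gam L i⁆ ≤ _
    apply cp3_three
    · rw [Subgroup.commutator_comm L]
      change ⁅gam L (i + 1), gam L j⁆ ≤ _
      have := ih (i + 1)
      rwa [show i + 1 + j + 1 = i + (j + 1) + 1 by ring] at this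
    · exact Subgroup.commutator_mono (ih i) (le_refl _)

/-- CP-3d (Step A) -/
theorem stepA {G : Type*} [Group G] (L Lk Y : Subgroup G) [L.Normal] [Lk.Normal] [Y.Normal]
    (h1 : Lk ≤ L) (h2 : Lk ≤ Y ⊔ ⁅L, L⁆) (j : ℕ) :
    SS L Lk j ≤ (Y ⊓ gam L j) ⊔ gam L (j + 1) := by
  have h3 : Lk ≤ (Y ⊓ L) ⊔ ⁅L, L⁆ := by
    intro x hx
    obtain ⟨y, hy, c, hc, hyc⟩ := Subgroup.mem_sup_of_normal_left.1 (h2 hx)
    have hcL : c ∈ L := Subgroup.commutator_le_self L hc
    have hyL : y ∈ L := by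
      have : y = x * c⁻¹ := by rw [← hyc]; group
      rw [this]
      exact L.mul_mem (h1 hx) (L.inv_mem hcL)
    exact Subgroup.mem_sup_of_normal_left.2 ⟨y, ⟨hy, hyL⟩, c, hc, hyc⟩
  induction j with
  | zero => exact h3
  | succ j ih =>
    haveI := gam_normal L (j + 1)
    haveI := gam_normal L (j + 1 + 1)
    haveI := gam_normal L j
    change ⁅SS L Lk j, L⁆ ⊔ ⁅gam L j, Lk⁆ ≤ _
    refine sup_le ?_ ?_
    · refine le_trans (Subgroup.commutator_mono ih (le_refl L)) ?_
      apply cp3_sup_left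
      · refine le_trans (le_inf ?_ ?_) le_sup_left
        · exact le_trans (Subgroup.commutator_mono inf_le_left (le_refl L))
            (Subgroup.commutator_le_left _ _)
        · exact Subgroup.commutator_mono inf_le_right (le_refl L)
      · exact le_sup_right
    · refine le_trans (Subgroup.commutator_mono (le_refl _) h3) ?_
      apply cp3_sup_right
      · refine le_trans (le_inf ?_ ?_) le_sup_left
        · exact le_trans (Subgroup.commutator_mono (le_refl _) inf_le_left)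
            (Subgroup.commutator_le_right _ _)
        · exact Subgroup.commutator_mono (le_refl _) inf_le_right
      · refine le_trans ?_ le_sup_right
        exact gam_comm L j 1

theorem cp3_SS_normal {G : Type*} [Group G] (L Lk : Subgroup G) [L.Normal] [Lk.Normal] (j : ℕ) :
    (SS L Lk j).Normal := by
  induction j with
  | zero => exact ‹Lk.Normal›
  | succ n ih =>
    haveI := gam_normal L n
    haveI := @Subgroup.commutator_normal G _ (SS L Lk n) L ih _
    haveI := Subgroup.commutator_normal (gam L n) Lk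
    exact Subgroup.sup_normal _ _

theorem cp3_SS_le {G : Type*} [Group G] (L Lk : Subgroup G) [L.Normal] [Lk.Normal]
    (h1 : Lk ≤ L) (j : ℕ) : SS L Lk j ≤ L := by
  cases j with
  | zero => exact h1
  | succ n =>
    haveI := gam_normal L n
    refine sup_le (Subgroup.commutator_le_right _ _) ?_
    exact le_trans (Subgroup.commutator_le_right _ _) h1

theorem cp3_map_gam {G H : Type*} [Group G] [Group H] (L : Subgroup G) (θ : H →* G)
    (hθ : ∀ x, θ x ∈ L) (j : ℕ) {σ : H} (hσ : σ ∈ gam (⊤ : Subgroup H) j) : θ σ ∈ gam L j := by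
  have h : ∀ j, (gam (⊤ : Subgroup H) j).map θ ≤ gam L j := by
    intro j
    induction j with
    | zero =>
      rintro _ ⟨x, _, rfl⟩
      exact hθ x
    | succ n ih =>
      change Subgroup.map θ ⁅gam (⊤ : Subgroup H) n, (⊤ : Subgroup H)⁆ ≤ _
      rw [Subgroup.map_commutator]
      refine Subgroup.commutator_mono ih ?_
      rintro _ ⟨x, _, rfl⟩
      exact hθ x
  exact h j ⟨σ, hσ, rfl⟩

theorem cp3_calc {Q : Type*} [Group Q] (S A T B : Q) (h1 : Commute S A) (h2 : Commute S (T * B))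
    (h3 : Commute A T) (h4 : Commute ⁅A, B⁆ T) : ⁅S * A, T * B⁆ = ⁅A, B⁆ := by
  have e1 : ⁅S * A, T * B⁆ = ⁅A, T * B⁆ := by
    rw [commutatorElement_def, commutatorElement_def, mul_inv_rev]
    have h5 : Commute S (A * (T * B) * A⁻¹) := by
      exact (h1.mul_right h2).mul_right h1.inv_right
    calc S * A * (T * B) * (A⁻¹ * S⁻¹) * (T * B)⁻¹
        = (S * (A * (T * B) * A⁻¹)) * S⁻¹ * (T * B)⁻¹ := by simp only [mul_assoc]
      _ = A * (T * B) * A⁻¹ * (T * B)⁻¹ := by rw [h5.eq]; simp only [mul_assoc, mul_inv_cancel_left]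
  have e2 : ⁅A, T * B⁆ = T * ⁅A, B⁆ * T⁻¹ := by
    rw [commutatorElement_def, commutatorElement_def, mul_inv_rev]
    calc A * (T * B) * A⁻¹ * (B⁻¹ * T⁻¹) = (A * T) * B * A⁻¹ * B⁻¹ * T⁻¹ := by
          simp only [mul_assoc]
      _ = T * (A * B * A⁻¹ * B⁻¹) * T⁻¹ := by rw [h3.eq]; simp only [mul_assoc]
  rw [e1, e2, ← h4.eq]
  simp only [mul_assoc, mul_inv_cancel, mul_one]

/-- CP-3e: homomorphisms which agree modulo `Lk` agree on `gam ⊤ j` modulo `SS L Lk j` -/
theorem agree_mod_SS {G : Type*} [Group G] (L Lk : Subgroup G) [L.Normal] [Lk.Normal]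
    (h1 : Lk ≤ L) {H : Type*} [Group H] (η θ : H →* G) (hη : ∀ x, η x ∈ L) (hθ : ∀ x, θ x ∈ L)
    (h : ∀ x, η x * (θ x)⁻¹ ∈ Lk) (j : ℕ) {σ : H} (hσ : σ ∈ gam (⊤ : Subgroup H) j) :
    η σ * (θ σ)⁻¹ ∈ SS L Lk j := by
  induction j generalizing σ with
  | zero => exact h σ
  | succ j ih =>
    haveI := cp3_SS_normal L Lk (j + 1)
    haveI := cp3_SS_normal L Lk j
    set N := SS L Lk (j + 1) with hN
    set q := QuotientGroup.mk' N with hq
    have hqN : ∀ x, q x = 1 ↔ x ∈ N := fun x => QuotientGroup.eq_one_iff x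
    have hcomm : ∀ a b : G, ⁅a, b⁆ ∈ N → Commute (q a) (q b) := by
      intro a b hab
      rw [← commutatorElement_eq_one_iff_commute, ← map_commutatorElement, hqN]
      exact hab
    have hle : gam (⊤ : Subgroup H) (j + 1) ≤ MonoidHom.eqLocus (q.comp η) (q.comp θ) := by
      change ⁅gam (⊤ : Subgroup H) j, ⊤⁆ ≤ _
      rw [Subgroup.commutator_le]
      intro a ha b _
      change q (η ⁅a, b⁆) = q (θ ⁅a, b⁆)
      have hs := ih ha
      obtain ⟨s, hs'⟩ : ∃ s, s = η a * (θ a)⁻¹ := ⟨_, rfl⟩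
      obtain ⟨t, ht'⟩ : ∃ t, t = η b * (θ b)⁻¹ := ⟨_, rfl⟩
      rw [← hs'] at hs
      have ht : t ∈ Lk := ht' ▸ h b
      have ea : η a = s * θ a := by rw [hs']; group
      have eb : η b = t * θ b := by rw [ht']; group
      have hA : θ a ∈ gam L j := cp3_map_gam L θ hθ j ha
      have hAB : ⁅θ a, θ b⁆ ∈ gam L j :=
        cp3_gam_succ_le L j (Subgroup.commutator_mem_commutator hA (hθ b))
      have n1 : ∀ x ∈ SS L Lk j, ∀ y ∈ L, ⁅x, y⁆ ∈ N := fun x hx y hy =>
        (le_sup_left : ⁅SS L Lk j, L⁆ ≤ N) (Subgroup.commutator_mem_commutator hx hy)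
      have n2 : ∀ x ∈ gam L j, ∀ y ∈ Lk, ⁅x, y⁆ ∈ N := fun x hx y hy =>
        (le_sup_right : ⁅gam L j, Lk⁆ ≤ N) (Subgroup.commutator_mem_commutator hx hy)
      rw [map_commutatorElement, map_commutatorElement, map_commutatorElement,
        map_commutatorElement, ea, eb, map_mul, map_mul]
      apply cp3_calc
      · exact hcomm _ _ (n1 s hs _ (hθ a))
      · rw [← map_mul]
        exact hcomm _ _ (n1 s hs _ (L.mul_mem (h1 ht) (hθ b)))
      · exact hcomm _ _ (n2 _ hA t ht)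
      · rw [← map_commutatorElement]
        exact hcomm _ _ (n2 _ hAB t ht)
    have h5 : q (η σ) = q (θ σ) := hle hσ
    rw [← hqN, map_mul, map_inv, h5, mul_inv_cancel]

theorem cp3_lift_mem {G : Type*} [Group G] (L : Subgroup G) {α : Type*} (f : α → G)
    (hf : ∀ a, f a ∈ L) (x : FreeGroup α) : FreeGroup.lift f x ∈ L := by
  have h := FreeGroup.range_lift_le (f := f) (s := L) (by
    rintro _ ⟨a, rfl⟩; exact hf a)
  exact h ⟨x, rfl⟩

theorem cp3_combine {G : Type*} [Group G] (L : Subgroup G) {n m : ℕ} (η : FreeGroup (Fin n) →* G)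
    (θ : FreeGroup (Fin m) →* G) (hη : ∀ x, η x ∈ L) (hθ : ∀ x, θ x ∈ L) :
    ∃ (ψ : FreeGroup (Fin (n + m)) →* G) (i : FreeGroup (Fin n) →* FreeGroup (Fin (n + m)))
      (k : FreeGroup (Fin m) →* FreeGroup (Fin (n + m))), (∀ x, ψ x ∈ L) ∧
      (∀ x, ψ (i x) = η x) ∧ ∀ x, ψ (k x) = θ x := by
  refine ⟨FreeGroup.lift (Fin.append (fun a => η (FreeGroup.of a)) (fun a => θ (FreeGroup.of a))),
    FreeGroup.map (Fin.castAdd m), FreeGroup.map (Fin.natAdd n), ?_, ?_, ?_⟩
  · apply cp3_lift_mem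
    intro a
    refine Fin.addCases (fun a => ?_) (fun a => ?_) a
    · rw [Fin.append_left]; exact hη _
    · rw [Fin.append_right]; exact hθ _
  · intro x
    have : (FreeGroup.lift (Fin.append (fun a => η (FreeGroup.of a))
        (fun a => θ (FreeGroup.of a)))).comp (FreeGroup.map (Fin.castAdd m)) = η := by
      ext a
      simp
    exact DFunLike.congr_fun this x
  · intro x
    have : (FreeGroup.lift (Fin.append (fun a => η (FreeGroup.of a))
        (fun a => θ (FreeGroup.of a)))).comp (FreeGroup.map (Fin.natAdd n)) = θ := by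
      ext a
      simp
    exact DFunLike.congr_fun this x

/-- CP-3f: every element of `gam L j` comes from a finitely generated free group -/
theorem gam_lift {G : Type*} [Group G] (L : Subgroup G) (j : ℕ) {l : G} (hl : l ∈ gam L j) :
    ∃ (n : ℕ) (η : FreeGroup (Fin n) →* G) (σ : FreeGroup (Fin n)), (∀ x, η x ∈ L) ∧
      σ ∈ gam (⊤ : Subgroup (FreeGroup (Fin n))) j ∧ η σ = l := by
  induction j generalizing l with
  | zero =>
    refine ⟨1, FreeGroup.lift (fun _ => l), FreeGroup.of 0, ?_, Subgroup.mem_top _, ?_⟩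
    · exact cp3_lift_mem L _ (fun _ => hl)
    · simp
  | succ j ih =>
    have hl' : l ∈ ⁅gam L j, L⁆ := hl
    rw [Subgroup.commutator_def] at hl'
    induction hl' using Subgroup.closure_induction with
    | mem g hg =>
      obtain ⟨a, ha, b, hb, rfl⟩ := hg
      obtain ⟨n, η, σ, h1, h2, h3⟩ := ih ha
      obtain ⟨ψ, i, k, h4, h5, h6⟩ := cp3_combine L η (FreeGroup.lift (fun _ : Fin 1 => b)) h1
        (cp3_lift_mem L _ (fun _ => hb))
      refine ⟨n + 1, ψ, ⁅i σ, k (FreeGroup.of 0)⁆, h4, ?_, ?_⟩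
      · exact Subgroup.commutator_mem_commutator
          (cp3_map_gam ⊤ i (fun _ => Subgroup.mem_top _) j h2) (Subgroup.mem_top _)
      · rw [map_commutatorElement, h5, h6, h3]
        simp
    | one =>
      refine ⟨0, 1, 1, fun x => L.one_mem, Subgroup.one_mem _, rfl⟩
    | mul x y hx hy ihx ihy =>
      obtain ⟨n, η, σ, h1, h2, h3⟩ := ihx (by
        change x ∈ ⁅gam L j, L⁆; rw [Subgroup.commutator_def]; exact hx)
      obtain ⟨m, θ, σ', h1', h2', h3'⟩ := ihy (by
        change y ∈ ⁅gam L j, L⁆; rw [Subgroup.commutator_def]; exact hy)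
      obtain ⟨ψ, i, k, h4, h5, h6⟩ := cp3_combine L η θ h1 h1'
      refine ⟨n + m, ψ, i σ * k σ', h4, ?_, ?_⟩
      · exact Subgroup.mul_mem _ (cp3_map_gam ⊤ i (fun _ => Subgroup.mem_top _) (j + 1) h2)
          (cp3_map_gam ⊤ k (fun _ => Subgroup.mem_top _) (j + 1) h2')
      · rw [map_mul, h5, h6, h3, h3']
    | inv x hx ihx =>
      obtain ⟨n, η, σ, h1, h2, h3⟩ := ihx (by
        change x ∈ ⁅gam L j, L⁆; rw [Subgroup.commutator_def]; exact hx)
      exact ⟨n, η, σ⁻¹, h1, Subgroup.inv_mem _ h2, by rw [map_inv, h3]⟩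

end Pool.Agent.CP
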