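import Mathlib

/-!
# `S`-units of a number field are finitely generated (module OR-8 for helper98, MP_82cbb9_al)

`x ∈ Kˣ` with `s ^ j * x` and `s ^ j * x⁻¹` integral: the valuations at the finitely many primes
above `s` map this group to a f.g. abelian group, and the kernel is the group of units of `𝓞 K`,
finitely generated by Dirichlet.
-/

open IsDedekindDomain NumberField

namespace Pool.Agent.CP

/-- the group of `s`-units of `K` -/
def sUnits (K : Type*) [Field K] (s : ℕ) : Subgroup Kˣ where
  carrier := {x | ∃ j : ℕ, IsIntegral ℤ ((s : K) ^ j * x) ∧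
    IsIntegral ℤ ((s : K) ^ j * (x⁻¹ : Kˣ))}
  one_mem' := ⟨0, by simpa using isIntegral_one, by simpa using isIntegral_one⟩
  mul_mem' := by
    rintro x y ⟨i, hx, hx'⟩ ⟨j, hy, hy'⟩
    refine ⟨i + j, ?_, ?_⟩
    · have h : (s : K) ^ (i + j) * ((x * y : Kˣ) : K) = ((s : K) ^ i * x) * ((s : K) ^ j * y) := by
        rw [Units.val_mul, pow_add]
        ring
      rw [h]
      exact hx.mul hy
    · have h : (s : K) ^ (i + j) * (((x * y)⁻¹ : Kˣ) : K) =
          ((s : K) ^ i * (x⁻¹ : Kˣ)) * ((s : K) ^ j * (y⁻¹ : Kˣ)) := by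
        rw [mul_inv, Units.val_mul, pow_add]
        ring
      rw [h]
      exact hx'.mul hy'
  inv_mem' := by
    rintro x ⟨i, hx, hx'⟩
    exact ⟨i, hx', by simpa using hx⟩

/-- the valuations of the invertible elements at finitely many primes -/
noncomputable def valsAt (K : Type*) [Field K] [NumberField K]
    (T : Set (HeightOneSpectrum (𝓞 K))) : Additive Kˣ →+ (T → ℤ) where
  toFun x v := Multiplicative.toAdd (v.1.valuationOfNeZero (K := K) x.toMul)
  map_zero' := by
    funext v
    simp
  map_add' x y := by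
    funext v
    simp

theorem val_le_one_of_integral {K : Type*} [Field K] [NumberField K]
    (v : HeightOneSpectrum (𝓞 K)) {x : K} (hx : IsIntegral ℤ x) : v.valuation K x ≤ 1 := by
  obtain ⟨y, rfl⟩ : ∃ y : 𝓞 K, algebraMap (𝓞 K) K y = x := ⟨⟨x, hx⟩, rfl⟩
  exact v.valuation_le_one y

theorem val_natCast_eq_one {K : Type*} [Field K] [NumberField K]
    (v : HeightOneSpectrum (𝓞 K)) (s : ℕ) (hv : (s : 𝓞 K) ∉ v.asIdeal) :
    v.valuation K (s : K) = 1 := by
  have h1 : v.valuation K (algebraMap (𝓞 K) K (s : 𝓞 K)) = 1 := by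
    refine le_antisymm (v.valuation_le_one _) ?_
    rw [← not_lt, v.valuation_lt_one_iff_mem]
    exact hv
  simpa using h1

theorem isIntegral_of_val {K : Type*} [Field K] [NumberField K] {x : K}
    (h : ∀ v : HeightOneSpectrum (𝓞 K), v.valuation K x ≤ 1) : IsIntegral ℤ x := by
  obtain ⟨y, rfl⟩ := HeightOneSpectrum.mem_integers_of_valuation_le_one (R := 𝓞 K) K x h
  exact RingOfIntegers.isIntegral_coe y

theorem s_units_fg (K : Type*) [Field K] [NumberField K] (s : ℕ) (hs : 0 < s) :
    ∃ U : Subgroup Kˣ, U.FG ∧ ∀ x : Kˣ, x ∈ U ↔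
      ∃ j : ℕ, IsIntegral ℤ ((s : K) ^ j * x) ∧ IsIntegral ℤ ((s : K) ^ j * (x⁻¹ : Kˣ)) := by
  classical
  refine ⟨sUnits K s, ?_, fun x => Iff.rfl⟩
  have hs0 : (s : 𝓞 K) ≠ 0 := by exact_mod_cast hs.ne'
  set T : Set (HeightOneSpectrum (𝓞 K)) := {v | (s : 𝓞 K) ∈ v.asIdeal} with hT
  have hTfin : T.Finite := by
    have h := Ideal.finite_factors (I := Ideal.span {(s : 𝓞 K)})
      (by simpa [Ideal.span_singleton_eq_bot] using hs0)
    refine h.subset fun v hv => ?_
    simp only [Set.mem_ofPred_eq]
    rw [Ideal.dvd_span_singleton]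
    exact hv
  have : Finite T := hTfin
  rw [Subgroup.fg_iff_add_fg]
  set P : Submodule ℤ (Additive Kˣ) := (Subgroup.toAddSubgroup (sUnits K s)).toIntSubmodule with hP
  have hPfg : P.FG := by
    refine Submodule.fg_of_fg_map_of_fg_inf_ker (valsAt K T).toIntLinearMap
      (IsNoetherian.noetherian _) ?_
    -- the units of the ring of integers
    have hfin : Module.Finite ℤ (Additive (𝓞 K)ˣ) := by
      rw [Module.Finite.iff_addGroup_fg]
      exact AddGroup.fg_iff_addMonoid_fg.mpr (Monoid.fg_iff_add_fg.mp inferInstance)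
    have hrange : (P ⊓ LinearMap.ker (valsAt K T).toIntLinearMap) =
        LinearMap.range (MonoidHom.toAdditive
          (Units.map (algebraMap (𝓞 K) K : 𝓞 K →* K))).toIntLinearMap := by
      ext x
      constructor
      · rintro ⟨⟨j, hx, hx'⟩, hker⟩
        have hval : ∀ v : HeightOneSpectrum (𝓞 K),
            v.valuation K ((x.toMul : Kˣ) : K) = 1 := by
          intro v
          by_cases hv : v ∈ T
          · have h1 := congrFun (LinearMap.mem_ker.mp hker) ⟨v, hv⟩
            have h2 : v.valuationOfNeZero (K := K) x.toMul = 1 := h1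
            rw [← HeightOneSpectrum.valuationOfNeZero_eq, h2]
            rfl
          · have hs1 := val_natCast_eq_one (K := K) v s hv
            have h1 := val_le_one_of_integral v hx
            have h2 := val_le_one_of_integral v hx'
            rw [map_mul, map_pow, hs1, one_pow, one_mul] at h1 h2
            refine le_antisymm h1 ?_
            change v.valuation K (((x.toMul : Kˣ)⁻¹ : Kˣ) : K) ≤ 1 at h2
            rw [Units.val_inv_eq_inv_val, map_inv₀] at h2
            have hne : v.valuation K ((x.toMul : Kˣ) : K) ≠ 0 := by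
              rw [Valuation.ne_zero_iff]
              exact Units.ne_zero _
            exact (inv_le_one₀ (zero_lt_iff.mpr hne)).mp h2
        have hxi : IsIntegral ℤ ((x.toMul : Kˣ) : K) :=
          isIntegral_of_val fun v => (hval v).le
        have hxi' : IsIntegral ℤ (((x.toMul : Kˣ)⁻¹ : Kˣ) : K) := by
          refine isIntegral_of_val fun v => ?_
          rw [Units.val_inv_eq_inv_val, map_inv₀, hval v, inv_one]
        let u : (𝓞 K)ˣ :=
          { val := ⟨((x.toMul : Kˣ) : K), hxi⟩
            inv := ⟨(((x.toMul : Kˣ)⁻¹ : Kˣ) : K), hxi'⟩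
            val_inv := by
              apply RingOfIntegers.ext
              exact Units.mul_inv (x.toMul : Kˣ)
            inv_val := by
              apply RingOfIntegers.ext
              exact Units.inv_mul (x.toMul : Kˣ) }
        refine ⟨Additive.ofMul u, ?_⟩
        change Additive.ofMul (Units.map (algebraMap (𝓞 K) K : 𝓞 K →* K) u) = x
        have : Units.map (algebraMap (𝓞 K) K : 𝓞 K →* K) u = x.toMul := by
          ext
          rfl
        rw [this]
        rfl
      · rintro ⟨u, rfl⟩
        refine ⟨⟨0, ?_, ?_⟩, ?_⟩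
        · rw [pow_zero, one_mul]
          exact RingOfIntegers.isIntegral_coe ((u.toMul : (𝓞 K)ˣ) : 𝓞 K)
        · rw [pow_zero, one_mul]
          exact RingOfIntegers.isIntegral_coe (((u.toMul)⁻¹ : (𝓞 K)ˣ) : 𝓞 K)
        · refine LinearMap.mem_ker.mpr ?_
          funext v
          change Multiplicative.toAdd (v.1.valuationOfNeZero (K := K)
            (Units.map (algebraMap (𝓞 K) K : 𝓞 K →* K) u.toMul)) = 0
          rw [HeightOneSpectrum.valuation_of_unit_eq]
          rfl
    rw [hrange, LinearMap.range_eq_map]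
    exact Submodule.FG.map _ hfin.fg_top
  exact (Submodule.fg_iff_addSubgroup_fg P).mp hPfg

end Pool.Agent.CP
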